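import Pool.Agent.N818.SN.Stm4
import Pool.Agent.N271.SN.TC

/-!
# Project SN (helper818), part TD (helper559): Tamagawa numbers of `y² = x (x + n) (x + 9 n)`

Adapted from the part TC of helper271.
-/

set_option autoImplicit false

namespace Pool.Agent.N559.SN

open WeierstrassCurve
open Pool.Agent.N818.SN (Fm WD base IsTamagawa SingularReduction cD S_TD)
open Pool.Agent.Y700 (PtP SingRed E0 tam)
open Pool.Agent.Y809.BSD14 (index_of t_E0 line_rel t_TGOOD nadd nsub nmul npow nneg ladd lneg lsub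
  lmul lmul' toZMod_eq_zero)
open Pool.Agent.N271.SN (IsC lt_iff_le f64 f64_unit dec64c nat_unit c3 norm_n inv_lt_one inv_pos'
  norm_three y_zero)

open scoped Classical

section padic

variable {p : ℕ} [hp : Fact p.Prime]

theorem isCp (n : ℕ) : IsC ((WD n).map (Int.castRingHom ℚ_[p])).toAffine
    (10 * (n : ℚ_[p])) (9 * (n : ℚ_[p]) ^ 2) := by
  constructor <;> simp [WD]

theorem Delta (n : ℕ) : (WD n).Δ = 82944 * (n : ℤ) ^ 6 := by
  simp only [WD, WeierstrassCurve.Δ, WeierstrassCurve.b₂, WeierstrassCurve.b₄,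
    WeierstrassCurve.b₆, WeierstrassCurve.b₈]
  ring

theorem nons {n : ℕ} (hn : n ≠ 0) {x y : ℚ_[p]}
    (h : y ^ 2 = x ^ 3 + 10 * (n : ℚ_[p]) * x ^ 2 + 9 * (n : ℚ_[p]) ^ 2 * x) :
    ((WD n).map (Int.castRingHom ℚ_[p])).toAffine.Nonsingular x y := by
  have hD : ((WD n).map (Int.castRingHom ℚ_[p])).toAffine.Δ ≠ 0 := by
    show ((WD n).map (Int.castRingHom ℚ_[p])).Δ ≠ 0
    rw [WeierstrassCurve.map_Δ, Delta]
    intro h0
    have h1 : ((82944 * (n : ℤ) ^ 6 : ℤ) : ℚ_[p]) = 0 := h0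
    have h2 : (82944 * (n : ℤ) ^ 6 : ℤ) = 0 := by exact_mod_cast h1
    have h3 : (n : ℤ) ≠ 0 := by exact_mod_cast hn
    have h4 : (n : ℤ) ^ 6 ≠ 0 := pow_ne_zero _ h3
    omega
  rw [← Affine.equation_iff_nonsingular_of_Δ_ne_zero hD]
  exact (isCp n).eqn.2 h

theorem sing_def (n : ℕ) (x y : ℚ_[p]) : SingRed (WD n) p x y ↔ ‖x‖ ≤ 1 ∧ ‖y‖ ≤ 1 ∧
    ‖3 * x ^ 2 + 2 * (10 * (n : ℚ_[p])) * x + 9 * (n : ℚ_[p]) ^ 2‖ < 1 ∧ ‖2 * y‖ < 1 := by
  unfold SingRed
  have e1 : ((WD n).a₁ : ℚ_[p]) * y - (3 * x ^ 2 + 2 * ((WD n).a₂ : ℚ_[p]) * x +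
      ((WD n).a₄ : ℚ_[p])) = -(3 * x ^ 2 + 2 * (10 * (n : ℚ_[p])) * x + 9 * (n : ℚ_[p]) ^ 2) := by
    simp only [WD]
    push_cast
    ring
  have e2 : 2 * y + ((WD n).a₁ : ℚ_[p]) * x + ((WD n).a₃ : ℚ_[p]) = 2 * y := by
    simp only [WD]
    push_cast
    ring
  rw [e1, e2, norm_neg]

/-- the statement about the subgroup -/
theorem final {n : ℕ} {c : ℕ} (h : tam (WD n) p = c) :
    ∃ H : AddSubgroup (base (WD n) ℚ_[p]).toAffine.Point,
      (∀ P, P ∈ H ↔ ¬ SingularReduction (WD n) p P) ∧ H.index = c := by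
  refine ⟨E0 (WD n) p, fun P => ?_, h⟩
  rw [t_E0]
  constructor
  · rintro h1 ⟨x, y, h2, he, hs⟩
    exact h1 x y h2 he hs
  · intro h1 x y h2 he hs
    exact h1 ⟨x, y, h2, he, hs⟩

theorem mem_E0 {n : ℕ} {x y : ℚ_[p]}
    (h : ((WD n).map (Int.castRingHom ℚ_[p])).toAffine.Nonsingular x y) :
    (Affine.Point.some x y h : PtP (WD n) p) ∈ E0 (WD n) p ↔ ¬ SingRed (WD n) p x y := by
  rw [t_E0]
  constructor
  · intro h1
    exact h1 x y h rfl
  · intro h1 x' y' h' he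
    obtain ⟨e1, e2⟩ := Affine.Point.some.inj he
    rw [← e1, ← e2]
    exact h1

end padic

section three

theorem dec27 : ∀ n : ZMod 27, 9 * n = 18 → ∀ x : ZMod 27, 9 * x = 0 → ∀ y : ZMod 27,
    y ^ 2 = x ^ 3 + 10 * n * x ^ 2 + 9 * n ^ 2 * x → 3 * x = 0 := by
  decide +kernel

/-- the reduction modulo 27 -/
noncomputable def f27 [Fact (Nat.Prime 3)] : ℤ_[3] →+* ZMod 27 := PadicInt.toZModPow 3

theorem f27_zero [Fact (Nat.Prime 3)] {z : ℤ_[3]} (h : ‖z‖ < 1) : 9 * f27 z = 0 := by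
  rw [PadicInt.norm_lt_one_iff_dvd] at h
  obtain ⟨w, hw⟩ := h
  rw [hw, map_mul, map_natCast]
  have e : (9 : ZMod 27) * (((3 : ℕ) : ZMod 27) * f27 w) = (27 : ZMod 27) * f27 w := by
    push_cast; ring
  rw [e]
  have e2 : (27 : ZMod 27) = 0 := by decide
  rw [e2, zero_mul]

theorem f27_le [Fact (Nat.Prime 3)] {z : ℤ_[3]} (h : 3 * f27 z = 0) : ‖z‖ ≤ 1 / 9 := by
  have h1 : f27 (3 * z) = 0 := by rw [map_mul, map_ofNat]; exact h
  have h2 : 3 * z ∈ RingHom.ker (PadicInt.toZModPow (p := 3) 3) := h1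
  rw [PadicInt.ker_toZModPow, ← PadicInt.norm_le_pow_iff_mem_span_pow, norm_mul] at h2
  have h3 : ‖(3 : ℤ_[3])‖ = (3 : ℝ)⁻¹ := by
    have := PadicInt.norm_p (p := 3)
    exact_mod_cast this
  rw [h3] at h2
  norm_num at h2
  linarith

theorem nat_unit3 [Fact (Nat.Prime 3)] {n : ℕ} (hn : n % 3 = 2) : ‖(n : ℚ_[3])‖ = 1 := by
  rw [Padic.norm_natCast_eq_one_iff]
  rw [Nat.Prime.coprime_iff_not_dvd Nat.prime_three]
  omega

theorem sing3 [Fact (Nat.Prime 3)] {n : ℕ} (hn : n % 3 = 2) {x y : ℚ_[3]}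
    (h : ((WD n).map (Int.castRingHom ℚ_[3])).toAffine.Nonsingular x y) :
    SingRed (WD n) 3 x y ↔ ‖x‖ < 1 := by
  have hE := (isCp n).eqn.1 h.1
  have hN := nat_unit3 hn
  have hk : ∀ k : ℤ, ‖(k : ℚ_[3])‖ ≤ 1 := fun k => Padic.norm_int_le_one k
  have h3 : ‖(3 : ℚ_[3])‖ < 1 := by
    have := Padic.norm_p_lt_one (p := 3)
    exact_mod_cast this
  have h20 : ‖(20 : ℚ_[3])‖ = 1 := by
    have := (Padic.norm_natCast_eq_one_iff (p := 3) (n := 20)).2 (by norm_num)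
    exact_mod_cast this
  rw [sing_def]
  constructor
  · rintro ⟨hx, hy, hf, -⟩
    have e1 : 20 * (n : ℚ_[3]) * x = (3 * x ^ 2 + 2 * (10 * (n : ℚ_[3])) * x +
        9 * (n : ℚ_[3]) ^ 2) - 3 * (x ^ 2 + ((3 : ℤ) : ℚ_[3]) * (n : ℚ_[3]) ^ 2) := by
      push_cast; ring
    have e2 : ‖20 * (n : ℚ_[3]) * x‖ < 1 := by
      rw [e1]
      exact lsub hf (lmul' h3 (nadd (npow hx 2) (nmul (hk _) (npow hN.le 2))))
    rwa [norm_mul, norm_mul, h20, hN, one_mul, one_mul] at e2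
  · intro hx
    have hf : ‖3 * x ^ 2 + 2 * (10 * (n : ℚ_[3])) * x + 9 * (n : ℚ_[3]) ^ 2‖ < 1 := by
      have e1 : 3 * x ^ 2 + 2 * (10 * (n : ℚ_[3])) * x + 9 * (n : ℚ_[3]) ^ 2 =
        (((3 : ℤ) : ℚ_[3]) * x + ((20 : ℤ) : ℚ_[3]) * n) * x +
          3 * (((3 : ℤ) : ℚ_[3]) * (n : ℚ_[3]) ^ 2) := by push_cast; ring
      rw [e1]
      exact ladd (lmul (nadd (nmul (hk _) hx.le) (nmul (hk _) hN.le)) hx)
        (lmul' h3 (nmul (hk _) (npow hN.le 2)))
    have hy : ‖y‖ < 1 := by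
      have e1 : ‖y ^ 2‖ < 1 := by
        rw [hE]
        have e2 : x ^ 3 + 10 * (n : ℚ_[3]) * x ^ 2 + 9 * (n : ℚ_[3]) ^ 2 * x =
          (x ^ 2 + ((10 : ℤ) : ℚ_[3]) * (n * x) + ((9 : ℤ) : ℚ_[3]) * (n : ℚ_[3]) ^ 2) * x := by
          push_cast; ring
        rw [e2]
        exact lmul (nadd (nadd (npow hx.le 2) (nmul (hk _) (nmul hN.le hx.le)))
          (nmul (hk _) (npow hN.le 2))) hx
      rw [norm_pow] at e1
      by_contra hc
      nlinarith [not_lt.1 hc]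
    refine ⟨hx.le, hy.le, hf, ?_⟩
    have := hk 2
    push_cast at this
    exact lmul this hy

theorem zero_pt0 {p : ℕ} [Fact p.Prime] {n : ℕ} (hn0 : n ≠ 0) :
    ((WD n).map (Int.castRingHom ℚ_[p])).toAffine.Nonsingular 0 0 :=
  nons hn0 (by ring)

theorem three [Fact (Nat.Prime 3)] {n : ℕ} (h3 : n % 3 = 2) : tam (WD n) 3 = 2 := by
  have hn0 : n ≠ 0 := by omega
  have hN := nat_unit3 h3
  rw [tam, AddSubgroup.index_eq_two_iff_exists_notMem_and]
  refine ⟨Affine.Point.some _ _ (zero_pt0 hn0), ?_, fun P => ?_⟩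
  · rw [mem_E0, not_not, sing3 h3 (zero_pt0 hn0), norm_zero]
    exact one_pos
  · rcases P with _ | ⟨x, y, h⟩
    · exact Or.inr (E0 (WD n) 3).zero_mem
    by_cases hx : ‖x‖ < 1
    swap
    · right
      rw [mem_E0, sing3 h3 h]
      exact hx
    left
    have hE := (isCp n).eqn.1 h.1
    by_cases hx0 : x = 0
    · subst hx0
      have hy : y = 0 := y_zero (by rw [hE]; ring)
      subst hy
      rw [(isCp n).dbl h]
      exact (E0 (WD n) 3).zero_mem
    · obtain ⟨x3, y3, hn3, he3, hx3⟩ := (isCp n).add_T h (zero_pt0 hn0) hx0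
      rw [he3, mem_E0, sing3 h3 hn3]
      intro hlt
      have hs := (sing3 h3 h).2 hx
      rw [sing_def] at hs
      obtain ⟨X, hX⟩ : ∃ X : ℤ_[3], (X : ℚ_[3]) = x := ⟨⟨x, hx.le⟩, rfl⟩
      obtain ⟨Y, hY⟩ : ∃ Y : ℤ_[3], (Y : ℚ_[3]) = y := ⟨⟨y, hs.2.1⟩, rfl⟩
      have e1 : Y ^ 2 = X ^ 3 + 10 * (n : ℤ_[3]) * X ^ 2 + 9 * (n : ℤ_[3]) ^ 2 * X := by
        apply PadicInt.ext
        push_cast
        rw [hX, hY]
        exact hE
      have e4 := congrArg (f27 : ℤ_[3] → ZMod 27) e1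
      simp only [map_add, map_mul, map_pow, map_natCast, map_ofNat] at e4
      have e5 := f27_le (dec27 (n : ZMod 27) (by
        obtain ⟨k, hk⟩ : ∃ k, n = 3 * k + 2 := ⟨n / 3, by omega⟩
        rw [hk]
        push_cast
        have e2 : (27 : ZMod 27) = 0 := by decide
        linear_combination (k : ZMod 27) * e2) (f27 X) (f27_zero (by
          rw [PadicInt.norm_def, hX]
          exact hx)) (f27 Y) e4)
      rw [PadicInt.norm_def, hX] at e5
      have e6 := congrArg (fun z : ℚ_[3] => ‖z‖) hx3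
      simp only [sub_zero] at e6
      have e7 : (3 * (0 : ℚ_[3]) ^ 2 + 2 * (10 * (n : ℚ_[3])) * 0 + 9 * (n : ℚ_[3]) ^ 2) =
        9 * (n : ℚ_[3]) ^ 2 := by ring
      have h9 : ‖(9 : ℚ_[3])‖ = 1 / 9 := by
        have h3' : ‖(3 : ℚ_[3])‖ = (3 : ℝ)⁻¹ := by
          have := Padic.norm_p (p := 3)
          exact_mod_cast this
        have : (9 : ℚ_[3]) = 3 * 3 := by norm_num
        rw [this, norm_mul, h3']
        norm_num
      rw [e7, norm_mul, norm_mul, norm_pow, h9, hN] at e6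
      have h8 := mul_le_mul_of_nonneg_left e5 (norm_nonneg x3)
      linarith

end three

section two

theorem dec64 : ∀ n : ZMod 64, 8 * n = 24 → ∀ x : ZMod 64, 32 * x = 32 → ∀ y : ZMod 64,
    y ^ 2 = x ^ 3 + 10 * n * x ^ 2 + 9 * n ^ 2 * x → 8 * x = 40 := by
  decide +kernel

theorem sing2 [Fact (Nat.Prime 2)] {n : ℕ} (hn : n % 2 = 1) {x y : ℚ_[2]}
    (h : ((WD n).map (Int.castRingHom ℚ_[2])).toAffine.Nonsingular x y) :
    SingRed (WD n) 2 x y ↔ ‖x‖ = 1 := by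
  have hE := (isCp n).eqn.1 h.1
  have hN := nat_unit hn
  have h2 : ‖(2 : ℚ_[2])‖ < 1 := by
    have := Padic.norm_p_lt_one (p := 2)
    exact_mod_cast this
  have h9 : ‖(9 : ℚ_[2])‖ = 1 := by
    have := nat_unit (n := 9) (by norm_num)
    exact_mod_cast this
  have hk : ∀ k : ℤ, ‖(k : ℚ_[2])‖ ≤ 1 := fun k => Padic.norm_int_le_one k
  rw [sing_def]
  constructor
  · rintro ⟨hx, hy, hf, -⟩
    by_contra hne
    have hx1 : ‖x‖ < 1 := lt_of_le_of_ne hx hne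
    have e1 : 9 * (n : ℚ_[2]) ^ 2 = (3 * x ^ 2 + 2 * (10 * (n : ℚ_[2])) * x +
        9 * (n : ℚ_[2]) ^ 2) - (3 * x + 2 * (10 * (n : ℚ_[2]))) * x := by ring
    have e2 : ‖3 * x + 2 * (10 * (n : ℚ_[2]))‖ ≤ 1 := by
      have h3 := hk 3
      have h4 := hk (20 * n)
      push_cast at h3 h4
      have e3 : 3 * x + 2 * (10 * (n : ℚ_[2])) = 3 * x + 20 * (n : ℚ_[2]) := by ring
      rw [e3]
      exact nadd (nmul h3 hx) h4
    have e3 : ‖9 * (n : ℚ_[2]) ^ 2‖ < 1 := by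
      rw [e1]
      exact lsub hf (lmul e2 hx1)
    rw [norm_mul, norm_pow, hN, one_pow, h9, one_mul] at e3
    exact lt_irrefl _ e3
  · intro hx
    have hy : ‖y‖ ≤ 1 := by
      have e1 : ‖y ^ 2‖ ≤ 1 := by
        rw [hE]
        have h4 := hk (10 * n)
        have h5 := hk (9 * n ^ 2)
        push_cast at h4 h5
        exact nadd (nadd (npow hx.le 3) (nmul h4 (npow hx.le 2))) (nmul h5 hx.le)
      rw [norm_pow] at e1
      nlinarith [norm_nonneg y]
    refine ⟨hx.le, hy, ?_, ?_⟩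
    · by_contra hlt
      obtain ⟨X, rfl⟩ : ∃ X : ℤ_[2], (X : ℚ_[2]) = x := ⟨⟨x, hx.le⟩, rfl⟩
      have e1 : ‖(3 * X ^ 2 + 2 * (10 * (n : ℤ_[2])) * X + 9 * (n : ℤ_[2]) ^ 2 : ℤ_[2])‖ = 1 := by
        refine le_antisymm (PadicInt.norm_le_one _) ?_
        rw [PadicInt.norm_def]
        push_cast
        exact not_lt.1 hlt
      have e2 := f64_unit e1
      have e3 : 32 * f64 X = 32 := f64_unit hx
      have e4 : 32 * f64 (n : ℤ_[2]) = 32 := f64_unit (by
        rw [PadicInt.norm_def]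
        push_cast
        exact hN)
      simp only [map_add, map_mul, map_pow, map_natCast, map_ofNat] at e2 e4
      have e5 : (32 : ZMod 64) * (3 * f64 X ^ 2 + 2 * (10 * (n : ZMod 64)) * f64 X +
          9 * (n : ZMod 64) ^ 2) = 64 * (6 + 10 * (n : ZMod 64) * f64 X) := by
        linear_combination (3 * f64 X + 3) * e3 + (9 * (n : ZMod 64) + 9) * e4
      have e6 : (64 : ZMod 64) = 0 := by decide
      rw [e5, e6, zero_mul] at e2
      exact absurd e2 (by decide)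
    · exact lmul' h2 hy

/-- the unit first coordinates are congruent to five modulo eight -/
theorem five [Fact (Nat.Prime 2)] {n : ℕ} (hn : n % 8 = 3) {x y : ℚ_[2]}
    (h : ((WD n).map (Int.castRingHom ℚ_[2])).toAffine.Nonsingular x y) (hx : ‖x‖ = 1) :
    ∃ X : ℤ_[2], (X : ℚ_[2]) = x ∧ 8 * f64 X = 40 := by
  have hE := (isCp n).eqn.1 h.1
  have hs := (sing2 (by omega) h).2 hx
  rw [sing_def] at hs
  obtain ⟨X, rfl⟩ : ∃ X : ℤ_[2], (X : ℚ_[2]) = x := ⟨⟨x, hs.1⟩, rfl⟩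
  obtain ⟨Y, rfl⟩ : ∃ Y : ℤ_[2], (Y : ℚ_[2]) = y := ⟨⟨y, hs.2.1⟩, rfl⟩
  refine ⟨X, rfl, ?_⟩
  have e1 : Y ^ 2 = X ^ 3 + 10 * (n : ℤ_[2]) * X ^ 2 + 9 * (n : ℤ_[2]) ^ 2 * X := by
    apply PadicInt.ext
    push_cast
    exact hE
  have e4 := congrArg (f64 : ℤ_[2] → ZMod 64) e1
  simp only [map_add, map_mul, map_pow, map_natCast, map_ofNat] at e4
  refine dec64 (n : ZMod 64) ?_ (f64 X) (f64_unit hx) (f64 Y) e4
  obtain ⟨k, hk⟩ : ∃ k, n = 8 * k + 3 := ⟨n / 8, by omega⟩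
  rw [hk]
  push_cast
  have e2 : (64 : ZMod 64) = 0 := by decide
  linear_combination (k : ZMod 64) * e2

theorem two [Fact (Nat.Prime 2)] {n : ℕ} (hn : n % 8 = 3) : tam (WD n) 2 = 2 := by
  have hn2 : n % 2 = 1 := by omega
  have hn0 : n ≠ 0 := by omega
  have hR := nons (p := 2) hn0 (x := -(n : ℚ_[2])) (y := 0) (by ring)
  have h7 : ‖(-(n : ℚ_[2]))‖ = 1 := by
    rw [norm_neg]
    exact nat_unit hn2
  rw [tam, AddSubgroup.index_eq_two_iff_exists_notMem_and]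
  refine ⟨Affine.Point.some _ _ hR, ?_, fun P => ?_⟩
  · rw [mem_E0, not_not]
    exact (sing2 hn2 hR).2 h7
  · by_cases hP : P ∈ E0 (WD n) 2
    · exact Or.inr hP
    left
    rcases P with _ | ⟨x, y, h⟩
    · exact absurd (E0 (WD n) 2).zero_mem hP
    have hx : ‖x‖ = 1 := by
      rw [mem_E0, not_not] at hP
      exact (sing2 hn2 h).1 hP
    by_cases hxy : x = -(n : ℚ_[2]) ∧
        y = ((WD n).map (Int.castRingHom ℚ_[2])).toAffine.negY (-(n : ℚ_[2])) 0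
    · rw [Affine.Point.add_of_Y_eq hxy.1 hxy.2]
      exact (E0 (WD n) 2).zero_mem
    · rw [Affine.Point.add_some hxy, mem_E0, sing2 hn2 (Affine.nonsingular_add h hR hxy)]
      intro h3
      obtain ⟨c, hc⟩ := (isCp n).prod h hR hxy
      obtain ⟨X1, hX1, f1⟩ := five hn h hx
      obtain ⟨X2, hX2, f2⟩ := five hn hR h7
      obtain ⟨X3, hX3, f3⟩ := five hn (Affine.nonsingular_add h hR hxy) h3
      have hc1 : ‖c‖ ≤ 1 := by
        have e1 : ‖c ^ 2‖ = 1 := by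
          rw [← hc, norm_mul, norm_mul, hx, h7, h3]
          norm_num
        rw [norm_pow] at e1
        nlinarith [norm_nonneg c]
      obtain ⟨C, rfl⟩ : ∃ C : ℤ_[2], (C : ℚ_[2]) = c := ⟨⟨c, hc1⟩, rfl⟩
      have e2 : X1 * X2 * X3 = C ^ 2 := by
        apply PadicInt.ext
        push_cast
        rw [hX1, hX2, hX3]
        exact hc
      have e3 := congrArg (f64 : ℤ_[2] → ZMod 64) e2
      simp only [map_mul, map_pow] at e3
      refine dec64c (f64 C) ?_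
      rw [← e3]
      have e4 : (1000 : ZMod 64) = 40 := by decide
      linear_combination f64 X2 * f64 X3 * f1 + 5 * f64 X3 * f2 + 25 * f3 + e4

end two

section ram

variable {p : ℕ} [hp : Fact p.Prime] {n : ℕ}

theorem c9 : ((9 : ℤ_[p]) : ℚ_[p]) = 9 := rfl

theorem c10 : ((10 : ℤ_[p]) : ℚ_[p]) = 10 := rfl

theorem c20 : ((20 : ℤ_[p]) : ℚ_[p]) = 20 := rfl

theorem sing_ram (h3 : p ≠ 3) (hN : ‖(n : ℚ_[p])‖ < 1) {x y : ℚ_[p]}
    (h : ((WD n).map (Int.castRingHom ℚ_[p])).toAffine.Nonsingular x y) :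
    SingRed (WD n) p x y ↔ ‖x‖ < 1 := by
  have hE := (isCp n).eqn.1 h.1
  have hk : ∀ k : ℤ, ‖(k : ℚ_[p])‖ ≤ 1 := fun k => Padic.norm_int_le_one k
  rw [sing_def]
  constructor
  · rintro ⟨hx, hy, hf, -⟩
    have e1 : 3 * x ^ 2 = (3 * x ^ 2 + 2 * (10 * (n : ℚ_[p])) * x + 9 * (n : ℚ_[p]) ^ 2) -
        (((20 : ℤ) : ℚ_[p]) * x + ((9 : ℤ) : ℚ_[p]) * n) * n := by push_cast; ring
    have e2 : ‖3 * x ^ 2‖ < 1 := by
      rw [e1]
      exact lsub hf (lmul (nadd (nmul (hk _) hx) (nmul (hk _) hN.le)) hN)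
    rw [norm_mul, norm_three h3, one_mul, norm_pow] at e2
    by_contra hc
    have : ‖x‖ = 1 := le_antisymm hx (not_lt.1 hc)
    rw [this] at e2
    norm_num at e2
  · intro hx
    have hf : ‖3 * x ^ 2 + 2 * (10 * (n : ℚ_[p])) * x + 9 * (n : ℚ_[p]) ^ 2‖ < 1 := by
      have e1 : 3 * x ^ 2 + 2 * (10 * (n : ℚ_[p])) * x + 9 * (n : ℚ_[p]) ^ 2 =
        (((3 : ℤ) : ℚ_[p]) * x + ((20 : ℤ) : ℚ_[p]) * n) * x +
          (((9 : ℤ) : ℚ_[p]) * n) * n := by push_cast; ring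
      rw [e1]
      exact ladd (lmul (nadd (nmul (hk _) hx.le) (nmul (hk _) hN.le)) hx)
        (lmul (nmul (hk _) hN.le) hN)
    have hy : ‖y‖ < 1 := by
      have e1 : ‖y ^ 2‖ < 1 := by
        rw [hE]
        have e2 : x ^ 3 + 10 * (n : ℚ_[p]) * x ^ 2 + 9 * (n : ℚ_[p]) ^ 2 * x =
          (x ^ 2 + ((10 : ℤ) : ℚ_[p]) * (n * x) + ((9 : ℤ) : ℚ_[p]) * (n : ℚ_[p]) ^ 2) * x := by
          push_cast; ring
        rw [e2]
        exact lmul (nadd (nadd (npow hx.le 2) (nmul (hk _) (nmul hN.le hx.le)))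
          (nmul (hk _) (npow hN.le 2))) hx
      rw [norm_pow] at e1
      by_contra hc
      nlinarith [not_lt.1 hc]
    refine ⟨hx.le, hy.le, hf, ?_⟩
    have := hk 2
    push_cast at this
    exact lmul this hy

/-- the first coordinates of the points with singular reduction -/
theorem key_ram (hs : Squarefree n) (hpn : p ∣ n) {x y : ℚ_[p]}
    (h : ((WD n).map (Int.castRingHom ℚ_[p])).toAffine.Nonsingular x y) (hx : ‖x‖ < 1) :
    ∃ X : ℤ_[p], x = n * (X : ℚ_[p]) ∧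
      PadicInt.toZMod X * ((PadicInt.toZMod X + 1) * (PadicInt.toZMod X + 9)) = 0 := by
  have hE := (isCp n).eqn.1 h.1
  have hN := norm_n (p := p) hs hpn
  have hp0 := inv_pos' (p := p)
  have hn0 : (n : ℚ_[p]) ≠ 0 := by
    intro h0
    rw [h0, norm_zero] at hN
    rw [← hN] at hp0
    exact lt_irrefl _ hp0
  have hX : ‖x / n‖ ≤ 1 := by
    rw [norm_div, hN, div_le_one hp0]
    exact (lt_iff_le x).1 hx
  obtain ⟨X, hXe⟩ : ∃ X : ℤ_[p], (X : ℚ_[p]) = x / n := ⟨⟨x / n, hX⟩, rfl⟩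
  have hxX : x = n * (X : ℚ_[p]) := by
    rw [hXe]
    field_simp
  refine ⟨X, hxX, ?_⟩
  have hg : PadicInt.toZMod (X * ((X + 1) * (X + 9))) = 0 := by
    rw [toZMod_eq_zero]
    refine lt_of_le_of_ne (PadicInt.norm_le_one _) fun hg => ?_
    have e1 : y ^ 2 = (n : ℚ_[p]) ^ 3 * ((X * ((X + 1) * (X + 9)) : ℤ_[p]) : ℚ_[p]) := by
      rw [hE, hxX]
      push_cast
      rw [c9]
      ring
    have e2 : ‖y‖ ^ 2 = ((p : ℝ)⁻¹) ^ 3 := by
      rw [← norm_pow, e1, norm_mul, norm_pow, hN, PadicInt.padic_norm_e_of_padicInt, hg, mul_one]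
    have hy : y ≠ 0 := by
      intro h0
      rw [h0, norm_zero] at e2
      have : 0 < ((p : ℝ)⁻¹) ^ 3 := by positivity
      rw [← e2] at this
      norm_num at this
    rw [Padic.norm_eq_zpow_neg_valuation hy, ← zpow_natCast, ← zpow_mul, ← zpow_neg_one,
      ← zpow_natCast, ← zpow_mul] at e2
    have hp1 : (1 : ℝ) < p := by exact_mod_cast hp.out.one_lt
    have e3 := zpow_right_injective₀ (by linarith) hp1.ne' e2
    push_cast at e3
    omega
  rw [← hg]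
  simp only [map_mul, map_add, map_one, map_ofNat]

/-- translation by a point of order two -/
theorem shift (h3 : p ≠ 3) (hs : Squarefree n) (hpn : p ∣ n) {x y : ℚ_[p]} {X e : ℤ_[p]}
    (h : ((WD n).map (Int.castRingHom ℚ_[p])).toAffine.Nonsingular x y)
    (hxX : x = n * (X : ℚ_[p])) (hXe : PadicInt.toZMod X = PadicInt.toZMod e)
    (hT : ((WD n).map (Int.castRingHom ℚ_[p])).toAffine.Nonsingular (n * (e : ℚ_[p])) 0)
    (he : PadicInt.toZMod (3 * e ^ 2 + 20 * e + 9) ≠ 0) :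
    (Affine.Point.some x y h + Affine.Point.some _ 0 hT : PtP (WD n) p) ∈ E0 (WD n) p := by
  have hN := norm_n (p := p) hs hpn
  have hp0 := inv_pos' (p := p)
  have hN1 : ‖(n : ℚ_[p])‖ < 1 := by rw [hN]; exact inv_lt_one
  by_cases hx : x = n * (e : ℚ_[p])
  · subst hx
    have hy : y = 0 := by
      have e1 := (isCp n).eqn.1 h.1
      have e2 := (isCp n).eqn.1 hT.1
      rw [← e2] at e1
      exact y_zero (by rw [e1]; norm_num)
    subst hy
    rw [(isCp n).dbl h]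
    exact (E0 (WD n) p).zero_mem
  · obtain ⟨x3, y3, hn3, he3, hx3⟩ := (isCp n).add_T h hT hx
    rw [he3, mem_E0, sing_ram h3 hN1 hn3]
    intro hlt
    have hd : ‖X - e‖ < 1 := by
      rw [← toZMod_eq_zero, map_sub, hXe, sub_self]
    have hd' : ‖((X - e : ℤ_[p]) : ℚ_[p])‖ ≤ (p : ℝ)⁻¹ := by
      rw [← lt_iff_le]
      exact hd
    have e1 : (x3 - n * (e : ℚ_[p])) * (n * ((X - e : ℤ_[p]) : ℚ_[p])) =
        (n : ℚ_[p]) ^ 2 * ((3 * e ^ 2 + 20 * e + 9 : ℤ_[p]) : ℚ_[p]) := by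
      have e2 : (n : ℚ_[p]) * ((X - e : ℤ_[p]) : ℚ_[p]) = x - n * (e : ℚ_[p]) := by
        rw [hxX]
        push_cast
        ring
      rw [e2, hx3]
      push_cast
      rw [c3, c20, c9]
      ring
    have hu : ‖(3 * e ^ 2 + 20 * e + 9 : ℤ_[p])‖ = 1 := by
      refine le_antisymm (PadicInt.norm_le_one _) (not_lt.1 fun hc => he ?_)
      exact toZMod_eq_zero.2 hc
    have e3 := congrArg (fun z : ℚ_[p] => ‖z‖) e1
    simp only [norm_mul, norm_pow, hN, PadicInt.padic_norm_e_of_padicInt] at e3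
    rw [hu] at e3
    have e4 : ‖x3 - n * (e : ℚ_[p])‖ < 1 := lsub hlt (lmul' hN1 (PadicInt.norm_le_one e))
    have hd'' : ‖X - e‖ ≤ (p : ℝ)⁻¹ := hd'
    have e5 : ‖x3 - n * (e : ℚ_[p])‖ * ((p : ℝ)⁻¹ * ‖X - e‖) ≤
        ‖x3 - n * (e : ℚ_[p])‖ * ((p : ℝ)⁻¹ * (p : ℝ)⁻¹) := by gcongr
    have e6 : ‖x3 - n * (e : ℚ_[p])‖ * ((p : ℝ)⁻¹ * (p : ℝ)⁻¹) < 1 * ((p : ℝ)⁻¹ * (p : ℝ)⁻¹) :=
      mul_lt_mul_of_pos_right e4 (by positivity)
    rw [e3] at e5
    nlinarith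

/-- points of order two have singular reduction -/
theorem tors_sing (h3 : p ≠ 3) (hs : Squarefree n) (hpn : p ∣ n) {P : PtP (WD n) p}
    (hP0 : P ≠ 0) (hP : P + P = 0) : P ∉ E0 (WD n) p := by
  have hN := norm_n (p := p) hs hpn
  have hN1 : ‖(n : ℚ_[p])‖ < 1 := by rw [hN]; exact inv_lt_one
  have hk : ∀ k : ℤ, ‖(k : ℚ_[p])‖ ≤ 1 := fun k => Padic.norm_int_le_one k
  rcases P with _ | ⟨x, y, h⟩
  · exact absurd rfl hP0
  have hy := (isCp n).y_of_dbl two_ne_zero h hP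
  subst hy
  rw [mem_E0, not_not, sing_ram h3 hN1 h]
  have hE := (isCp n).eqn.1 h.1
  by_contra hc
  have hc := not_lt.1 hc
  have e1 : x ^ 3 = -((((10 : ℤ) : ℚ_[p]) * x ^ 2 + (((9 : ℤ) : ℚ_[p]) * n) * x) * n) := by
    push_cast
    linear_combination -hE
  have e2 : ‖x‖ ^ 3 ≤ ‖x‖ ^ 2 * ‖(n : ℚ_[p])‖ := by
    rw [← norm_pow, e1, norm_neg, norm_mul]
    refine mul_le_mul_of_nonneg_right ?_ (norm_nonneg _)
    refine (Padic.nonarchimedean _ _).trans (max_le ?_ ?_)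
    · rw [norm_mul, norm_pow]
      exact mul_le_of_le_one_left (by positivity) (hk _)
    · rw [norm_mul]
      have h9 : ‖((9 : ℤ) : ℚ_[p]) * n‖ ≤ 1 := nmul (hk _) hN1.le
      nlinarith [norm_nonneg (n : ℚ_[p])]
  have e3 : 0 < ‖x‖ ^ 2 := by positivity
  nlinarith

/-- **Tamagawa number four** -/
theorem ram_four (h2 : p ≠ 2) (h3 : p ≠ 3) (hs : Squarefree n) (hpn : p ∣ n) :
    tam (WD n) p = 4 := by
  have hn0 : n ≠ 0 := hs.ne_zero
  have hN := norm_n (p := p) hs hpn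
  have hN1 : ‖(n : ℚ_[p])‖ < 1 := by rw [hN]; exact inv_lt_one
  have hnq : (n : ℚ_[p]) ≠ 0 := by exact_mod_cast hn0
  have h22 : (2 : ZMod p) ≠ 0 := by
    have := (ZMod.natCast_eq_zero_iff 2 p).not.2 (fun hd =>
      h2 ((Nat.prime_dvd_prime_iff_eq hp.out Nat.prime_two).1 hd))
    exact_mod_cast this
  have h33 : (3 : ZMod p) ≠ 0 := by
    have := (ZMod.natCast_eq_zero_iff 3 p).not.2 (fun hd =>
      h3 ((Nat.prime_dvd_prime_iff_eq hp.out Nat.prime_three).1 hd))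
    exact_mod_cast this
  have t0 : ((WD n).map (Int.castRingHom ℚ_[p])).toAffine.Nonsingular
      (n * ((0 : ℤ_[p]) : ℚ_[p])) 0 := nons hn0 (by push_cast; ring)
  have t1 : ((WD n).map (Int.castRingHom ℚ_[p])).toAffine.Nonsingular
      (n * ((-1 : ℤ_[p]) : ℚ_[p])) 0 := nons hn0 (by push_cast; ring)
  have t9 : ((WD n).map (Int.castRingHom ℚ_[p])).toAffine.Nonsingular
      (n * ((-9 : ℤ_[p]) : ℚ_[p])) 0 := nons hn0 (by push_cast; rw [c9]; ring)
  have d0 : PadicInt.toZMod (p := p) (3 * 0 ^ 2 + 20 * 0 + 9) ≠ 0 := by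
    simp only [map_add, map_mul, map_pow, map_zero, map_ofNat]
    have : (3 * 0 ^ 2 + 20 * 0 + 9 : ZMod p) = 3 * 3 := by norm_num
    rw [this]
    exact mul_ne_zero h33 h33
  have d1 : PadicInt.toZMod (p := p) (3 * (-1) ^ 2 + 20 * (-1) + 9) ≠ 0 := by
    simp only [map_add, map_mul, map_pow, map_one, map_ofNat, map_neg]
    have : (3 * (-1) ^ 2 + 20 * (-1) + 9 : ZMod p) = -(2 * 2 * 2) := by norm_num
    rw [this]
    exact neg_ne_zero.2 (mul_ne_zero (mul_ne_zero h22 h22) h22)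
  have d9 : PadicInt.toZMod (p := p) (3 * (-9) ^ 2 + 20 * (-9) + 9) ≠ 0 := by
    simp only [map_add, map_mul, map_pow, map_ofNat, map_neg]
    have : (3 * (-9) ^ 2 + 20 * (-9) + 9 : ZMod p) = (2 * 2 * 2) * (3 * 3) := by norm_num
    rw [this]
    exact mul_ne_zero (mul_ne_zero (mul_ne_zero h22 h22) h22) (mul_ne_zero h33 h33)
  let T : Fin 4 → PtP (WD n) p := ![0, Affine.Point.some _ _ t0,
    Affine.Point.some _ _ t1, Affine.Point.some _ _ t9]
  have hT2 : ∀ i, T i + T i = 0 := by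
    intro i
    fin_cases i
    · exact add_zero 0
    · exact (isCp n).dbl _
    · exact (isCp n).dbl _
    · exact (isCp n).dbl _
  have x12 : (n : ℚ_[p]) * ((0 : ℤ_[p]) : ℚ_[p]) ≠ n * ((-1 : ℤ_[p]) : ℚ_[p]) := by
    intro h
    have h' := mul_left_cancel₀ hnq h
    push_cast at h'
    norm_num at h'
  have x13 : (n : ℚ_[p]) * ((0 : ℤ_[p]) : ℚ_[p]) ≠ n * ((-9 : ℤ_[p]) : ℚ_[p]) := by
    intro h
    have h' := mul_left_cancel₀ hnq h
    push_cast at h'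
    rw [c9] at h'
    norm_num at h'
  have x23 : (n : ℚ_[p]) * ((-1 : ℤ_[p]) : ℚ_[p]) ≠ n * ((-9 : ℤ_[p]) : ℚ_[p]) := by
    intro h
    have h' := mul_left_cancel₀ hnq h
    push_cast at h'
    rw [c9] at h'
    norm_num at h'
  have hTinj : Function.Injective T := by
    intro i j hij
    fin_cases i <;> fin_cases j
    · rfl
    · exact absurd hij.symm (Affine.Point.some_ne_zero _)
    · exact absurd hij.symm (Affine.Point.some_ne_zero _)
    · exact absurd hij.symm (Affine.Point.some_ne_zero _)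
    · exact absurd hij (Affine.Point.some_ne_zero _)
    · rfl
    · exact absurd (Affine.Point.some.inj hij).1 x12
    · exact absurd (Affine.Point.some.inj hij).1 x13
    · exact absurd hij (Affine.Point.some_ne_zero _)
    · exact absurd (Affine.Point.some.inj hij).1.symm x12
    · rfl
    · exact absurd (Affine.Point.some.inj hij).1 x23
    · exact absurd hij (Affine.Point.some_ne_zero _)
    · exact absurd (Affine.Point.some.inj hij).1.symm x13
    · exact absurd (Affine.Point.some.inj hij).1.symm x23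
    · rfl
  refine index_of (E0 (WD n) p) T hT2 ?_ ?_
  · intro P
    rcases P with _ | ⟨x, y, h⟩
    · exact ⟨0, (E0 (WD n) p).zero_mem⟩
    by_cases hx : ‖x‖ < 1
    · obtain ⟨X, hxX, hX⟩ := key_ram hs hpn h hx
      rcases mul_eq_zero.1 hX with hX | hX
      · exact ⟨1, shift h3 hs hpn h hxX (by rw [hX, map_zero]) t0 d0⟩
      · rcases mul_eq_zero.1 hX with e4 | e4
        · refine ⟨2, shift h3 hs hpn h hxX ?_ t1 d1⟩
          simp only [map_neg, map_one]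
          linear_combination e4
        · refine ⟨3, shift h3 hs hpn h hxX ?_ t9 d9⟩
          simp only [map_neg, map_ofNat]
          linear_combination e4
    · refine ⟨0, ?_⟩
      have : T 0 = 0 := rfl
      rw [this, add_zero, mem_E0, sing_ram h3 hN1 h]
      exact hx
  · intro i j hij
    by_contra hne
    have h1 : T i + T j ≠ 0 := by
      intro h
      apply hne
      apply hTinj
      have h2 := hT2 j
      have h3 : T i = -T j := eq_neg_of_add_eq_zero_left h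
      have h4 : T j = -T j := eq_neg_of_add_eq_zero_left h2
      rw [h3, ← h4]
    have h2 : (T i + T j) + (T i + T j) = 0 := by
      have e : (T i + T j) + (T i + T j) = (T i + T i) + (T j + T j) := by abel
      rw [e, hT2, hT2, add_zero]
    exact tors_sing h3 hs hpn h1 h2 hij

end ram

/-- SN-TD: the Tamagawa numbers of `WD n` -/
theorem t_TD : S_TD := by
  rintro n ⟨hs, hn⟩ p hp
  have hn0 : n ≠ 0 := hs.ne_zero
  have hD : p ≠ 2 → p ≠ 3 → ¬ p ∣ n → ¬ (p : ℤ) ∣ (WD n).Δ := by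
    intro h2 h3 hpn
    rw [Delta]
    intro hd
    have hpp : Prime (p : ℤ) := Nat.prime_iff_prime_int.1 hp.out
    rcases hpp.dvd_or_dvd hd with h | h
    · have e1 : (82944 : ℤ) = 2 ^ 10 * 3 ^ 4 := by norm_num
      rw [e1] at h
      rcases hpp.dvd_or_dvd h with h | h
      · have := hpp.dvd_of_dvd_pow h
        have h5 : p ∣ 2 := by exact_mod_cast this
        exact h2 ((Nat.prime_dvd_prime_iff_eq hp.out Nat.prime_two).1 h5)
      · have := hpp.dvd_of_dvd_pow h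
        have h5 : p ∣ 3 := by exact_mod_cast this
        exact h3 ((Nat.prime_dvd_prime_iff_eq hp.out Nat.prime_three).1 h5)
    · have := hpp.dvd_of_dvd_pow h
      exact hpn (by exact_mod_cast this)
  constructor
  · apply final
    unfold cD
    by_cases h2 : p = 2
    · subst h2
      rw [if_pos (Or.inl rfl)]
      exact two (by omega)
    by_cases h3 : p = 3
    · subst h3
      rw [if_pos (Or.inr rfl)]
      exact three (by omega)
    rw [if_neg (not_or.2 ⟨h2, h3⟩)]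
    by_cases hpn : p ∣ n
    · rw [if_pos hpn]
      exact ram_four h2 h3 hs hpn
    · rw [if_neg hpn]
      exact t_TGOOD _ _ (hD h2 h3 hpn)
  · intro hd
    rw [Delta] at hd
    unfold cD
    have h2 : p ≠ 2 := by
      rintro rfl
      apply hd
      push_cast
      exact Dvd.dvd.mul_right (by norm_num) _
    have h3 : p ≠ 3 := by
      rintro rfl
      apply hd
      push_cast
      exact Dvd.dvd.mul_right (by norm_num) _
    have hpn : ¬ p ∣ n := by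
      intro h
      apply hd
      apply Dvd.dvd.mul_left
      exact Dvd.dvd.pow (by exact_mod_cast h) (by norm_num)
    rw [if_neg (not_or.2 ⟨h2, h3⟩), if_neg hpn]

end Pool.Agent.N559.SN
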